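import Pool.Agent.Lib.P8267fa.Defs

set_option autoImplicit false

namespace Pool.Agent.Lib.P8267fa

open Filter Topology

/-! ### The space `Y` -/

/-- Initial segments of a branch. -/
def br (x : ℕ → Bool) (k : ℕ) : List Bool := (List.range k).map x

theorem length_br (x : ℕ → Bool) (k : ℕ) : (br x k).length = k := by simp [br]

theorem br_eq {x x' : ℕ → Bool} {k k' : ℕ} (h : br x k = br x' k') :
    k = k' ∧ ∀ i < k, x i = x' i := by
  have h1 : k = k' := by
    have := congrArg List.length h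
    rwa [length_br, length_br] at this
  subst h1
  refine ⟨rfl, fun i hi => ?_⟩
  have := List.map_inj_left.1 h i (List.mem_range.2 hi)
  exact this

theorem br_congr {x x' : ℕ → Bool} {k : ℕ} (h : ∀ i < k, x i = x' i) : br x k = br x' k :=
  List.map_inj_left.2 fun i hi => h i (List.mem_range.1 hi)

/-- The space: the nodes of the binary tree and one point at infinity. -/
inductive Yt : Type
  | inf : Yt
  | node : List Bool → Yt

instance : TopologicalSpace Yt where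
  IsOpen U := Yt.inf ∈ U → ∃ F : Set (ℕ → Bool), F.Finite ∧
    ∀ s, Yt.node s ∉ U → ∃ x ∈ F, ∃ k, s = br x k
  isOpen_univ := fun _ => ⟨∅, Set.finite_empty, fun s hs => absurd trivial hs⟩
  isOpen_inter := by
    intro U V hU hV h
    obtain ⟨F, hF, hF'⟩ := hU h.1
    obtain ⟨G, hG, hG'⟩ := hV h.2
    refine ⟨F ∪ G, hF.union hG, fun s hs => ?_⟩
    by_cases hsU : Yt.node s ∈ U
    · obtain ⟨x, hx, k, hk⟩ := hG' s fun hsV => hs ⟨hsU, hsV⟩
      exact ⟨x, Or.inr hx, k, hk⟩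
    · obtain ⟨x, hx, k, hk⟩ := hF' s hsU
      exact ⟨x, Or.inl hx, k, hk⟩
  isOpen_sUnion := by
    rintro S hS ⟨U, hU, h⟩
    obtain ⟨F, hF, hF'⟩ := hS U hU h
    exact ⟨F, hF, fun s hs => hF' s fun hsU => hs ⟨U, hU, hsU⟩⟩

theorem isOpen_iff (U : Set Yt) : IsOpen U ↔ (Yt.inf ∈ U → ∃ F : Set (ℕ → Bool), F.Finite ∧
    ∀ s, Yt.node s ∉ U → ∃ x ∈ F, ∃ k, s = br x k) := Iff.rfl

theorem isOpen_of_notMem {U : Set Yt} (h : Yt.inf ∉ U) : IsOpen U := fun h' => absurd h' h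

theorem isClopen_of_open_mem {U : Set Yt} (hU : IsOpen U) (h : Yt.inf ∈ U) : IsClopen U :=
  ⟨⟨isOpen_of_notMem fun h' => h' h⟩, hU⟩

theorem exists_branch (s : List Bool) : ∃ x k, s = br x k := by
  refine ⟨fun i => s.getD i false, s.length, ?_⟩
  apply List.ext_getElem
  · rw [length_br]
  · intro n h1 h2
    simp [br, List.getD_eq_getElem?_getD, List.getElem?_eq_getElem h1]

theorem isClopen_node (s : List Bool) : IsClopen ({Yt.node s} : Set Yt) := by
  refine ⟨⟨?_⟩, isOpen_of_notMem fun h => by cases h⟩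
  intro _
  obtain ⟨x, k, hk⟩ := exists_branch s
  refine ⟨{x}, Set.finite_singleton x, fun t ht => ?_⟩
  have : t = s := by
    by_contra hne
    apply ht
    intro h
    apply hne
    cases h
    rfl
  exact ⟨x, rfl, k, this ▸ hk⟩

/-- The set of all points except the nodes `x|k`, `k ≥ m`. -/
def A (x : ℕ → Bool) (m : ℕ) : Set Yt := {y | ∀ k, m ≤ k → y ≠ Yt.node (br x k)}

theorem inf_mem_A (x : ℕ → Bool) (m : ℕ) : Yt.inf ∈ A x m := fun k _ h => by cases h

theorem isOpen_A (x : ℕ → Bool) (m : ℕ) : IsOpen (A x m) := by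
  intro _
  refine ⟨{x}, Set.finite_singleton x, fun s hs => ?_⟩
  unfold A at hs
  simp only [Set.mem_ofPred_eq, not_forall, not_not] at hs
  obtain ⟨k, _, hk⟩ := hs
  cases hk
  exact ⟨x, rfl, k, rfl⟩

theorem isClopen_A (x : ℕ → Bool) (m : ℕ) : IsClopen (A x m) :=
  isClopen_of_open_mem (isOpen_A x m) (inf_mem_A x m)

theorem A_mono (x : ℕ → Bool) {m m' : ℕ} (h : m ≤ m') : A x m ⊆ A x m' :=
  fun _ hy k hk => hy k (le_trans h hk)

instance : Countable Yt := by
  have : Function.Injective (fun y : Yt => match y with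
      | Yt.inf => (none : Option (List Bool))
      | Yt.node s => some s) := by
    intro a b h
    cases a <;> cases b <;> simp_all
  exact this.countable

theorem exists_clopen {y : Yt} {U : Set Yt} (hU : IsOpen U) (hy : y ∈ U) :
    ∃ V : Set Yt, IsClopen V ∧ y ∈ V ∧ V ⊆ U := by
  rcases y with _ | s
  · exact ⟨U, isClopen_of_open_mem hU hy, hy, subset_rfl⟩
  · exact ⟨{Yt.node s}, isClopen_node s, rfl, Set.singleton_subset_iff.2 hy⟩

instance : T2Space Yt := by
  refine ⟨fun a b hab => ?_⟩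
  have key : ∀ (s : List Bool) (b : Yt), b ≠ Yt.node s →
      ∃ u v : Set Yt, IsOpen u ∧ IsOpen v ∧ Yt.node s ∈ u ∧ b ∈ v ∧ Disjoint u v := by
    intro s b hb
    exact ⟨{Yt.node s}, {Yt.node s}ᶜ, (isClopen_node s).isOpen, (isClopen_node s).compl.isOpen,
      rfl, hb, disjoint_compl_right⟩
  rcases a with _ | s
  · rcases b with _ | s
    · exact absurd rfl hab
    · obtain ⟨u, v, hu, hv, h1, h2, h3⟩ := key s _ hab
      exact ⟨v, u, hv, hu, h2, h1, h3.symm⟩
  · exact key s b hab.symm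

instance : CompletelyRegularSpace Yt := by
  refine CompletelyRegularSpace.of_isTopologicalBasis_clopens ?_
  refine TopologicalSpace.isTopologicalBasis_of_isOpen_of_nhds (fun u hu => hu.isOpen) ?_
  intro a u ha hu
  obtain ⟨V, hV, haV, hVu⟩ := exists_clopen hu ha
  exact ⟨V, hV, haV, hVu⟩

/-! ### A wild function on the Cantor space -/

open Classical in
/-- `f x` is the position of the last `true` of `x`, if there is one, and `0` otherwise. -/
noncomputable def fw (x : ℕ → Bool) : ℕ :=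
  if h : ∃ n, x n = true ∧ ∀ m, n < m → x m = false then h.choose else 0

theorem fw_large (x : ℕ → Bool) (L m : ℕ) :
    ∃ x' : ℕ → Bool, (∀ i < L, x' i = x i) ∧ m ≤ fw x' := by
  refine ⟨fun i => if i < L then x i else decide (i = max L m), fun i hi => by simp [hi], ?_⟩
  have h : ∃ n, (fun i => if i < L then x i else decide (i = max L m)) n = true ∧
      ∀ k, n < k → (fun i => if i < L then x i else decide (i = max L m)) k = false := by
    refine ⟨max L m, ?_, ?_⟩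
    · have : ¬ max L m < L := not_lt.2 (le_max_left _ _)
      simp [this]
    · intro k hk
      have h1 : ¬ k < L := not_lt.2 (le_of_lt (lt_of_le_of_lt (le_max_left _ _) hk))
      have h2 : k ≠ max L m := ne_of_gt hk
      simp only [h1, if_false, h2, decide_false]
  have h1 : fw (fun i => if i < L then x i else decide (i = max L m)) = h.choose := dif_pos h
  rw [h1]
  obtain ⟨h2, h3⟩ := h.choose_spec
  have h4 : ¬ h.choose < max L m := by
    intro hlt
    have := h3 _ hlt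
    have h5 : ¬ max L m < L := not_lt.2 (le_max_left _ _)
    simp [h5] at this
  exact le_trans (le_max_right _ _) (not_lt.1 h4)

/-- The Scott open family. -/
def Hf : Set (Set Yt) :=
  {V | IsOpen V ∧ Yt.inf ∈ V ∧ ∀ x : ℕ → Bool, ∃ k, fw x ≤ k ∧ Yt.node (br x k) ∈ V}

theorem Hf_zscott (Z : Type*) [TopologicalSpace Z] : IsZScott Yt Z Hf := by
  refine ⟨fun V hV => hV.1, fun W hW _ V hV hWV => ?_, fun 𝒞 h𝒞 hU => ?_⟩
  · refine ⟨hV, hWV hW.2.1, fun x => ?_⟩
    obtain ⟨k, hk, hk'⟩ := hW.2.2 x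
    exact ⟨k, hk, hWV hk'⟩
  · obtain ⟨_, ⟨V₀, hV₀, hinf⟩, hx⟩ := hU
    have hopen : ∀ V ∈ 𝒞, IsOpen V := by
      intro V hV
      obtain ⟨f, U, hU, rfl⟩ := h𝒞 hV
      exact hU.preimage f.continuous
    obtain ⟨F, hF, hF'⟩ := (isOpen_iff V₀).1 (hopen V₀ hV₀) hinf
    choose k hk hk' using hx
    choose W hW hW' using hk'
    refine ⟨insert V₀ (W '' F), ?_, (hF.image W).insert _, ?_, ?_, ?_⟩
    · rintro V (rfl | ⟨x, _, rfl⟩)
      · exact hV₀
      · exact hW x
    · apply isOpen_sUnion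
      rintro V (rfl | ⟨x, _, rfl⟩)
      · exact hopen _ hV₀
      · exact hopen _ (hW x)
    · exact ⟨V₀, Or.inl rfl, hinf⟩
    · intro x
      by_cases hxF : x ∈ F
      · exact ⟨k x, hk x, W x, Or.inr ⟨x, hxF, rfl⟩, hW' x⟩
      · -- far out the branch `x` leaves all the branches in `F`
        have hsep : ∀ x' ∈ F, ∃ n, ∀ k, n ≤ k → ∀ k', br x k ≠ br x' k' := by
          intro x' hx'
          obtain ⟨n, hn⟩ : ∃ n, x n ≠ x' n := by
            by_contra hcon
            push Not at hcon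
            exact hxF (funext hcon ▸ hx')
          refine ⟨n + 1, fun k hk k' h => ?_⟩
          exact hn ((br_eq h).2 n (by omega))
        choose! n hn using hsep
        obtain ⟨M, hM⟩ : ∃ M, ∀ x' ∈ F, n x' ≤ M := by
          obtain ⟨M, hM⟩ := (hF.image n).bddAbove
          exact ⟨M, fun x' hx' => hM ⟨x', hx', rfl⟩⟩
        refine ⟨max M (fw x), le_max_right _ _, V₀, Or.inl rfl, ?_⟩
        by_contra hcon
        obtain ⟨x', hx', k', hk'⟩ := hF' _ hcon
        exact hn x' hx' _ (le_trans (hM x' hx') (le_max_left _ _)) k' hk'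

/-! ### Two-valued maps -/

section two

variable {Z : Type*} [TopologicalSpace Z] (z₀ z₁ : Z)

open Classical in
/-- The map with value `z₁` on the clopen set `V` and `z₀` off it. -/
noncomputable def chi (V : Set Yt) (hV : IsClopen V) : C(Yt, Z) where
  toFun y := if y ∈ V then z₁ else z₀
  continuous_toFun := by
    refine continuous_def.2 fun U _ => ?_
    by_cases h1 : z₁ ∈ U <;> by_cases h0 : z₀ ∈ U
    · convert isOpen_univ
      ext y; by_cases hy : y ∈ V <;> simp [hy, h0, h1]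
    · convert hV.isOpen
      ext y; by_cases hy : y ∈ V <;> simp [hy, h0, h1]
    · convert hV.compl.isOpen
      ext y; by_cases hy : y ∈ V <;> simp [hy, h0, h1]
    · convert isOpen_empty
      ext y; by_cases hy : y ∈ V <;> simp [hy, h0, h1]

open Classical in
theorem chi_preimage₁ {V : Set Yt} (hV : IsClopen V) {U : Set Z} (h1 : z₁ ∈ U) (h0 : z₀ ∉ U) :
    chi z₀ z₁ V hV ⁻¹' U = V := by
  ext y
  show (if y ∈ V then z₁ else z₀) ∈ U ↔ y ∈ V
  by_cases hy : y ∈ V <;> simp [hy, h0, h1]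

open Classical in
theorem chi_preimage₀ {V : Set Yt} (hV : IsClopen V) {U : Set Z} (h1 : z₁ ∉ U) (h0 : z₀ ∈ U) :
    chi z₀ z₁ V hV ⁻¹' U = Vᶜ := by
  ext y
  show (if y ∈ V then z₁ else z₀) ∈ U ↔ y ∈ Vᶜ
  by_cases hy : y ∈ V <;> simp [hy, h0, h1]

open Classical in
theorem chi_preimage_univ {V : Set Yt} (hV : IsClopen V) {U : Set Z} (h1 : z₁ ∈ U)
    (h0 : z₀ ∈ U) : chi z₀ z₁ V hV ⁻¹' U = Set.univ := by
  ext y
  show (if y ∈ V then z₁ else z₀) ∈ U ↔ y ∈ Set.univ
  by_cases hy : y ∈ V <;> simp [hy, h0, h1]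

open Classical in
theorem chi_preimage_empty {V : Set Yt} (hV : IsClopen V) {U : Set Z} (h1 : z₁ ∉ U)
    (h0 : z₀ ∉ U) : chi z₀ z₁ V hV ⁻¹' U = ∅ := by
  ext y
  show (if y ∈ V then z₁ else z₀) ∈ U ↔ y ∈ (∅ : Set Yt)
  by_cases hy : y ∈ V <;> simp [hy, h0, h1]

end two

/-- The main theorem. -/
theorem not_regular {Z : Type*} [TopologicalSpace Z] {z₀ z₁ : Z} {U₁ : Set Z}
    (hU₁ : IsOpen U₁) (h₁ : z₁ ∈ U₁) (hz0 : z₀ ∉ U₁) :
    ¬ @RegularSpace C(Yt, Z) (t1Z Yt Z) := by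
  intro hreg
  let _ : TopologicalSpace C(Yt, Z) := t1Z Yt Z
  -- clopen sets belong to `OZ`
  have hclopen : ∀ V : Set Yt, IsClopen V → V ∈ OZ Yt Z := fun V hV =>
    ⟨chi z₀ z₁ V hV, U₁, hU₁, (chi_preimage₁ z₀ z₁ hV h₁ hz0).symm⟩
  have hbasis := TopologicalSpace.isTopologicalBasis_of_subbasis
    (show (t1Z Yt Z) = TopologicalSpace.generateFrom _ from rfl)
  -- neighbourhoods in terms of finitely many subbasic sets
  have hnhds : ∀ (f : C(Yt, Z)) (t : Set C(Yt, Z)), t ∈ 𝓝 f →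
      ∃ (ι : Set (Set (Set Yt) × Set Z)), ι.Finite ∧
        (∀ p ∈ ι, IsZScott Yt Z p.1 ∧ IsOpen p.2 ∧ f ⁻¹' p.2 ∈ p.1) ∧
        ∀ g : C(Yt, Z), (∀ p ∈ ι, g ⁻¹' p.2 ∈ p.1) → g ∈ t := by
    intro f t ht
    obtain ⟨_, ⟨ℱ, ⟨hℱfin, hℱsub⟩, rfl⟩, hf, hsub⟩ := hbasis.mem_nhds_iff.1 ht
    choose! H U hHU using fun S (hS : S ∈ ℱ) => hℱsub hS
    refine ⟨(fun S => (H S, U S)) '' ℱ, hℱfin.image _, ?_, ?_⟩
    · rintro _ ⟨S, hS, rfl⟩
      obtain ⟨h1, h2, h3⟩ := hHU S hS
      refine ⟨h1, h2, ?_⟩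
      have := hf S hS
      rw [h3] at this
      exact this
    · intro g hg
      apply hsub
      intro S hS
      rw [(hHU S hS).2.2]
      exact hg _ ⟨S, hS, rfl⟩
  -- the constant function
  set e : C(Yt, Z) := chi z₀ z₁ Set.univ isClopen_univ with he
  have hWopen : IsOpen {f : C(Yt, Z) | f ⁻¹' U₁ ∈ Hf} :=
    TopologicalSpace.isOpen_generateFrom_of_mem ⟨Hf, U₁, Hf_zscott Z, hU₁, rfl⟩
  have heW : e ∈ {f : C(Yt, Z) | f ⁻¹' U₁ ∈ Hf} := by
    show e ⁻¹' U₁ ∈ Hf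
    rw [he, chi_preimage₁ z₀ z₁ isClopen_univ h₁ hz0]
    exact ⟨isOpen_univ, trivial, fun x => ⟨fw x, le_rfl, trivial⟩⟩
  obtain ⟨t, ht, htc, htW⟩ := exists_mem_nhds_isClosed_subset (hWopen.mem_nhds heW)
  obtain ⟨ι, hιfin, hι, hιt⟩ := hnhds e t ht
  -- the sets `S m`
  let S : ℕ → Set (ℕ → Bool) := fun m => {x | ∀ p ∈ ι, z₁ ∈ p.2 → A x m ∈ p.1}
  have hS : ⋃ m, S m = Set.univ := by
    rw [Set.eq_univ_iff_forall]
    intro x
    have h1 : ∀ p ∈ ι, z₁ ∈ p.2 → ∃ m, A x m ∈ p.1 := by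
      intro p hp hz
      obtain ⟨hsc, hop, hpre⟩ := hι p hp
      have huniv : (Set.univ : Set Yt) ∈ p.1 := by
        by_cases h0 : z₀ ∈ p.2
        · rwa [he, chi_preimage_univ z₀ z₁ isClopen_univ hz h0] at hpre
        · rwa [he, chi_preimage₁ z₀ z₁ isClopen_univ hz h0] at hpre
      have hun : ⋃₀ (Set.range (A x)) = Set.univ := by
        rw [Set.eq_univ_iff_forall]
        rintro (_ | s)
        · exact ⟨A x 0, ⟨0, rfl⟩, inf_mem_A x 0⟩
        · refine ⟨A x (s.length + 1), ⟨_, rfl⟩, fun k hk h => ?_⟩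
          cases h
          rw [length_br] at hk
          omega
      obtain ⟨𝒟, h𝒟, hfin, hmem⟩ := hsc.2.2 (Set.range (A x))
        (by rintro _ ⟨m, rfl⟩; exact hclopen _ (isClopen_A x m)) (by rw [hun]; exact huniv)
      choose! m hm using fun V (hV : V ∈ 𝒟) => h𝒟 hV
      obtain ⟨M, hM⟩ := (hfin.image m).bddAbove
      have hsub : ⋃₀ 𝒟 ⊆ A x M := by
        rintro y ⟨V, hV, hy⟩
        rw [← hm V hV] at hy
        exact A_mono x (hM ⟨V, hV, rfl⟩) hy
      have hDopen : IsOpen (⋃₀ 𝒟) := hsc.1 _ hmem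
      have hDclopen : ⋃₀ 𝒟 ∈ OZ Yt Z := by
        by_cases hinf : Yt.inf ∈ ⋃₀ 𝒟
        · exact hclopen _ (isClopen_of_open_mem hDopen hinf)
        · have : ⋃₀ 𝒟 = ∅ := by
            rw [Set.eq_empty_iff_forall_notMem]
            rintro y ⟨V, hV, _⟩
            apply hinf
            refine ⟨V, hV, ?_⟩
            rw [← hm V hV]
            exact inf_mem_A x _
          rw [this]
          exact hclopen _ isClopen_empty
      exact ⟨M, hsc.2.1 _ hmem hDclopen _ (isOpen_A x M) hsub⟩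
    choose! m hm using h1
    obtain ⟨M, hM⟩ := (hιfin.image m).bddAbove
    refine Set.mem_iUnion.2 ⟨M, fun p hp hz => ?_⟩
    exact (hι p hp).1.2.1 _ (hm p hp hz) (hclopen _ (isClopen_A x _)) _ (isOpen_A x M)
      (A_mono x (hM ⟨p, hp, rfl⟩))
  -- Baire
  obtain ⟨m, x₀, hx₀⟩ := nonempty_interior_of_iUnion_of_closed
    (f := fun m => closure (S m)) (fun m => isClosed_closure) (by
      rw [Set.eq_univ_iff_forall]
      intro x
      have : x ∈ ⋃ m, S m := by rw [hS]; trivial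
      obtain ⟨m, hm⟩ := Set.mem_iUnion.1 this
      exact Set.mem_iUnion.2 ⟨m, subset_closure hm⟩)
  have hx₀' : closure (S m) ∈ 𝓝 x₀ := mem_interior_iff_mem_nhds.1 hx₀
  -- a cylinder inside
  have hcyl : ∀ (x : ℕ → Bool) (s : Set (ℕ → Bool)), s ∈ 𝓝 x →
      ∃ L, ∀ x' : ℕ → Bool, (∀ i < L, x' i = x i) → x' ∈ s := by
    intro x s hs
    rw [nhds_pi, Filter.mem_pi] at hs
    obtain ⟨I, hI, t, ht, hsub⟩ := hs
    obtain ⟨L, hL⟩ := hI.bddAbove
    refine ⟨L + 1, fun x' hx' => hsub fun i hi => ?_⟩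
    rw [hx' i (Nat.lt_succ_of_le (hL hi))]
    exact mem_of_mem_nhds (ht i)
  obtain ⟨L, hL⟩ := hcyl x₀ _ hx₀'
  obtain ⟨x, hx, hfx⟩ := fw_large x₀ L m
  -- the bad function
  have hbad : chi z₀ z₁ (A x m) (isClopen_A x m) ∈ t := by
    rw [← htc.closure_eq, mem_closure_iff_nhds]
    intro s hs
    obtain ⟨κ, hκfin, hκ, hκs⟩ := hnhds _ s hs
    -- finite parts of the complement
    have h1 : ∀ p ∈ κ, z₁ ∉ p.2 → z₀ ∈ p.2 →
        ∃ M, {y | ∃ k, m ≤ k ∧ k < M ∧ y = Yt.node (br x k)} ∈ p.1 := by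
      intro p hp hz1 hz0'
      obtain ⟨hsc, _, hpre⟩ := hκ p hp
      rw [chi_preimage₀ z₀ z₁ _ hz1 hz0'] at hpre
      have hun : ⋃₀ ((fun k => ({Yt.node (br x k)} : Set Yt)) '' {k | m ≤ k}) = (A x m)ᶜ := by
        ext y
        constructor
        · rintro ⟨_, ⟨k, hk, rfl⟩, hy⟩ h
          exact h k hk hy
        · intro hy
          unfold A at hy
          simp only [Set.mem_compl_iff, Set.mem_ofPred_eq, not_forall, not_not] at hy
          obtain ⟨k, hk, hk'⟩ := hy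
          exact ⟨_, ⟨k, hk, rfl⟩, hk'⟩
      obtain ⟨𝒟, h𝒟, hfin, hmem⟩ := hsc.2.2
        ((fun k => ({Yt.node (br x k)} : Set Yt)) '' {k | m ≤ k})
        (by rintro _ ⟨k, _, rfl⟩; exact hclopen _ (isClopen_node _)) (by rw [hun]; exact hpre)
      choose! κ' hκ1 hκ2 using fun V (hV : V ∈ 𝒟) => h𝒟 hV
      obtain ⟨M, hM⟩ := (hfin.image κ').bddAbove
      refine ⟨M + 1, hsc.2.1 _ hmem ?_ _ ?_ ?_⟩
      · have hf : (⋃₀ 𝒟) ∈ OZ Yt Z := by
          apply hclopen
          rw [Set.sUnion_eq_biUnion]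
          refine hfin.isClopen_biUnion fun V hV => ?_
          rw [← hκ2 V hV]
          exact isClopen_node _
        exact hf
      · apply isOpen_of_notMem
        rintro ⟨k, _, _, h⟩
        cases h
      · rintro y ⟨V, hV, hy⟩
        rw [← hκ2 V hV] at hy
        exact ⟨κ' V, hκ1 V hV, Nat.lt_succ_of_le (hM ⟨V, hV, rfl⟩), hy⟩
    choose! Mf hMf using h1
    obtain ⟨M, hM⟩ := (hκfin.image Mf).bddAbove
    -- choose `x'` in `S m` close to `x`
    obtain ⟨x', hx'x, hx'S⟩ : ∃ x' : ℕ → Bool, (∀ i < max L M, x' i = x i) ∧ x' ∈ S m := by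
      have hxc : x ∈ closure (S m) := hL x hx
      have hU : {x' : ℕ → Bool | ∀ i < max L M, x' i = x i} ∈ 𝓝 x := by
        have : {x' : ℕ → Bool | ∀ i < max L M, x' i = x i} =
            (Set.Iio (max L M)).pi fun i => {x i} := by
          ext x'
          simp [Set.mem_pi]
        rw [this]
        exact (isOpen_set_pi (Set.finite_Iio _) fun i _ => isOpen_discrete _).mem_nhds
          fun i _ => rfl
      obtain ⟨x', h1, h2⟩ := mem_closure_iff_nhds.1 hxc _ hU
      exact ⟨x', h1, h2⟩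
    have hCo : IsOpen (A x m ∪ A x' m) := (isOpen_A x m).union (isOpen_A x' m)
    have hC : IsClopen (A x m ∪ A x' m) := (isClopen_A x m).union (isClopen_A x' m)
    refine ⟨chi z₀ z₁ _ hC, hκs _ ?_, hιt _ ?_⟩
    · intro p hp
      obtain ⟨hsc, _, hpre⟩ := hκ p hp
      by_cases hz1 : z₁ ∈ p.2 <;> by_cases hz0' : z₀ ∈ p.2
      · rw [chi_preimage_univ z₀ z₁ _ hz1 hz0'] at hpre ⊢
        exact hpre
      · rw [chi_preimage₁ z₀ z₁ _ hz1 hz0'] at hpre ⊢
        exact hsc.2.1 _ hpre (hclopen _ (isClopen_A x m)) _ hCo Set.subset_union_left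
      · rw [chi_preimage₀ z₀ z₁ _ hz1 hz0']
        refine hsc.2.1 _ (hMf p hp hz1 hz0') (hclopen _ ?_) _ hC.compl.isOpen ?_
        · have : {y | ∃ k, m ≤ k ∧ k < Mf p ∧ y = Yt.node (br x k)} =
              ⋃ k ∈ Finset.Ico m (Mf p), ({Yt.node (br x k)} : Set Yt) := by
            ext y
            simp only [Set.mem_ofPred_eq, Finset.mem_Ico, Set.mem_iUnion,
              Set.mem_singleton_iff, exists_prop]
            constructor
            · rintro ⟨k, h1, h2, h3⟩; exact ⟨k, ⟨h1, h2⟩, h3⟩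
            · rintro ⟨k, ⟨h1, h2⟩, h3⟩; exact ⟨k, h1, h2, h3⟩
          rw [this]
          exact isClopen_biUnion_finset fun k _ => isClopen_node _
        · rintro y ⟨k, hk, hkM, rfl⟩ (h | h)
          · exact h k hk rfl
          · refine h k hk ?_
            rw [br_congr]
            intro i hi
            have h2 : Mf p ≤ M := hM ⟨p, hp, rfl⟩
            exact (hx'x i (lt_of_lt_of_le hi
              (le_trans (le_trans hkM.le h2) (le_max_right _ _)))).symm
      · rw [chi_preimage_empty z₀ z₁ _ hz1 hz0'] at hpre ⊢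
        exact hpre
    · intro p hp
      obtain ⟨hsc, _, hpre⟩ := hι p hp
      by_cases hz1 : z₁ ∈ p.2 <;> by_cases hz0' : z₀ ∈ p.2
      · rw [he, chi_preimage_univ z₀ z₁ _ hz1 hz0'] at hpre
        rw [chi_preimage_univ z₀ z₁ _ hz1 hz0']
        exact hpre
      · rw [chi_preimage₁ z₀ z₁ _ hz1 hz0']
        exact hsc.2.1 _ (hx'S p hp hz1) (hclopen _ (isClopen_A x' m)) _ hCo
          Set.subset_union_right
      · rw [he, chi_preimage₀ z₀ z₁ _ hz1 hz0', Set.compl_univ] at hpre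
        rw [chi_preimage₀ z₀ z₁ _ hz1 hz0']
        exact hsc.2.1 _ hpre (hclopen _ isClopen_empty) _ hC.compl.isOpen (Set.empty_subset _)
      · rw [he, chi_preimage_empty z₀ z₁ _ hz1 hz0'] at hpre
        rw [chi_preimage_empty z₀ z₁ _ hz1 hz0']
        exact hpre
  have hfin := htW hbad
  have hfin' : A x m ∈ Hf := by
    have h3 : chi z₀ z₁ (A x m) (isClopen_A x m) ⁻¹' U₁ ∈ Hf := hfin
    rwa [chi_preimage₁ z₀ z₁ _ h₁ hz0] at h3
  obtain ⟨k, hk, hk'⟩ := hfin'.2.2 x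
  exact hk' k (le_trans hfx hk) rfl

end Pool.Agent.Lib.P8267fa
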