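import Mathlib

set_option autoImplicit false

namespace Pool.Agent.Lib.P8267fa

/-- The family of all sets `f ⁻¹' U` with `f : Y → Z` continuous and `U ⊆ Z` open. -/
def OZ (Y Z : Type*) [TopologicalSpace Y] [TopologicalSpace Z] : Set (Set Y) :=
  {W | ∃ f : C(Y, Z), ∃ U : Set Z, IsOpen U ∧ W = f ⁻¹' U}

/-- The members of the `Z`-Scott topology on the open subsets of `Y`. -/
def IsZScott (Y Z : Type*) [TopologicalSpace Y] [TopologicalSpace Z] (H : Set (Set Y)) : Prop :=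
  (∀ V ∈ H, IsOpen V) ∧
  (∀ W ∈ H, W ∈ OZ Y Z → ∀ V : Set Y, IsOpen V → W ⊆ V → V ∈ H) ∧
  (∀ 𝒞 : Set (Set Y), 𝒞 ⊆ OZ Y Z → ⋃₀ 𝒞 ∈ H → ∃ 𝒟 ⊆ 𝒞, 𝒟.Finite ∧ ⋃₀ 𝒟 ∈ H)

/-- The topology on `C(Y, Z)` generated by the sets `{f | f ⁻¹' U ∈ H}`. -/
@[reducible] def t1Z (Y Z : Type*) [TopologicalSpace Y] [TopologicalSpace Z] : TopologicalSpace C(Y, Z) :=
  TopologicalSpace.generateFrom
    {S | ∃ H : Set (Set Y), ∃ U : Set Z, IsZScott Y Z H ∧ IsOpen U ∧ S = {f : C(Y, Z) | f ⁻¹' U ∈ H}}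

end Pool.Agent.Lib.P8267fa
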